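import Pool.Agent.H83.X.T1

set_option autoImplicit false

open MeasureTheory ProbabilityTheory Filter Topology Finset
open scoped Nat ENNReal

namespace Pool.Agent.H82.X

open Pool.Agent.H83.X
open Pool.Agent.H24.AG (ee)

variable {a : ℕ}

theorem ev_single (α : Fin a → ℝ) (n : ℕ) (k : Fin a → ℤ) (r : ℂ) :
    ev α n (AddMonoidAlgebra.single k r) = r * ee (n * ∑ i, (k i : ℝ) * α i) := by
  unfold ev
  rw [AddMonoidAlgebra.lift_single]
  rfl

theorem norm_ee (x : ℝ) : ‖ee x‖ = 1 := by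
  unfold ee
  rw [Complex.norm_exp]
  simp

/-- a trigonometric polynomial as an element of the group algebra -/
noncomputable def el (s : Finset (Fin a → ℤ)) (c : (Fin a → ℤ) → ℂ) :
    AddMonoidAlgebra ℂ (Fin a → ℤ) :=
  ∑ k ∈ s, AddMonoidAlgebra.single k (c k)

theorem ev_el (α : Fin a → ℝ) (s : Finset (Fin a → ℤ)) (c : (Fin a → ℤ) → ℂ) (n : ℕ) :
    ev α n (el s c) = tv α s c n := by
  unfold el tv
  rw [map_sum]
  exact Finset.sum_congr rfl fun k _ => ev_single α n k (c k)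

theorem norm_tv (α : Fin a → ℝ) (s : Finset (Fin a → ℤ)) (c : (Fin a → ℤ) → ℂ) (n : ℕ) :
    ‖tv α s c n‖ ≤ ∑ k ∈ s, ‖c k‖ := by
  unfold tv
  refine (norm_sum_le _ _).trans (Finset.sum_le_sum fun k _ => ?_)
  rw [norm_mul, norm_ee, mul_one]

theorem coeff_el (s : Finset (Fin a → ℤ)) (c : (Fin a → ℤ) → ℂ) (hs : (0 : Fin a → ℤ) ∉ s) :
    (el s c).coeff 0 = 0 := by
  unfold el
  rw [AddMonoidAlgebra.coeff_sum, Finsupp.finsetSum_apply]
  refine Finset.sum_eq_zero fun k hk => ?_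
  rw [AddMonoidAlgebra.coeff_single, Finsupp.single_apply, if_neg]
  rintro rfl
  exact hs hk

theorem ev_eq_tv (α : Fin a → ℝ) (n : ℕ) (w : AddMonoidAlgebra ℂ (Fin a → ℤ))
    (s : Finset (Fin a → ℤ)) (hs : w.coeff.support ⊆ s) :
    ev α n w = tv α s (fun k => w.coeff k) n := by
  unfold ev tv
  rw [AddMonoidAlgebra.lift_apply]
  refine (Finsupp.sum_of_support_subset _ hs _ fun k _ => ?_).trans ?_
  · simp
  · exact Finset.sum_congr rfl fun k _ => rfl


theorem ee_int (m : ℤ) : ee (m : ℝ) = 1 := by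
  unfold ee
  rw [Complex.exp_eq_one_iff]
  exact ⟨m, by push_cast; ring⟩

theorem conv (α' : Fin a → ℝ) (P : ℕ) (s : Finset (Fin a → ℤ)) (c c' : (Fin a → ℤ) → ℂ)
    (hc : ∀ k, k ∉ s → c k = 0)
    (hm : ∀ k ∈ s, ∀ l ∈ s,
      (∑ i ∈ range P, ev α' i (AddMonoidAlgebra.single (k + l) (1 : ℂ))) / P =
        (AddMonoidAlgebra.single (k + l) (1 : ℂ)).coeff 0) (j : ℕ) :
    (∑ i ∈ range P, tv α' s c i * tv α' s c' (i + j)) / P =
      tv α' s (fun l => c (-l) * c' l) j := by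
  classical
  have h1 : ∀ i : ℕ, tv α' s c i * tv α' s c' (i + j) = ∑ l ∈ s, ∑ k ∈ s,
      (c k * c' l * ee (j * ∑ i, (l i : ℝ) * α' i)) *
        ev α' i (AddMonoidAlgebra.single (k + l) (1 : ℂ)) := by
    intro i
    unfold tv
    rw [Finset.sum_mul_sum, Finset.sum_comm]
    refine Finset.sum_congr rfl fun l _ => Finset.sum_congr rfl fun k _ => ?_
    rw [ev_single, one_mul]
    have e1 : ee (((i + j : ℕ) : ℝ) * ∑ i, (l i : ℝ) * α' i) =
        ee (i * ∑ i, (l i : ℝ) * α' i) * ee (j * ∑ i, (l i : ℝ) * α' i) := by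
      rw [← ee_add]
      congr 1
      push_cast
      ring
    have e2 : ee (i * ∑ i, (((k + l) i : ℤ) : ℝ) * α' i) =
        ee (i * ∑ i, (k i : ℝ) * α' i) * ee (i * ∑ i, (l i : ℝ) * α' i) := by
      rw [← ee_add, ← mul_add, ← Finset.sum_add_distrib]
      congr 2
      refine Finset.sum_congr rfl fun m _ => ?_
      rw [Pi.add_apply]
      push_cast
      ring
    rw [e1, e2]
    ring
  rw [Finset.sum_congr rfl fun i _ => h1 i, Finset.sum_comm, Finset.sum_div]
  unfold tv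
  refine Finset.sum_congr rfl fun l hl => ?_
  rw [Finset.sum_comm, Finset.sum_div]
  have h2 : ∀ k ∈ s, (∑ i ∈ range P, (c k * c' l * ee (j * ∑ i, (l i : ℝ) * α' i)) *
        ev α' i (AddMonoidAlgebra.single (k + l) (1 : ℂ))) / P =
      if k = -l then c k * c' l * ee (j * ∑ i, (l i : ℝ) * α' i) else 0 := by
    intro k hk
    rw [← Finset.mul_sum, mul_div_assoc, hm k hk l hl, AddMonoidAlgebra.coeff_single,
      Finsupp.single_apply]
    by_cases h : k = -l
    · rw [if_pos h, if_pos (by rw [h]; exact neg_add_cancel l), mul_one]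
    · rw [if_neg h, if_neg (fun h' => h (eq_neg_of_add_eq_zero_left h')), mul_zero]
  rw [Finset.sum_congr rfl h2]
  by_cases h : -l ∈ s
  · rw [Finset.sum_ite_eq' s (-l), if_pos h]
  · rw [Finset.sum_ite_eq' s (-l), if_neg h]
    simp only [hc _ h, zero_mul]

theorem tv_per (B P : ℕ) (hP : 0 < P) (s : Finset (Fin a → ℤ)) (c : (Fin a → ℤ) → ℂ) :
    Function.Periodic (tv (fun i : Fin a => (B : ℝ) ^ (i : ℕ) / P) s c) P := by
  intro n
  unfold tv
  refine Finset.sum_congr rfl fun k _ => ?_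
  congr 1
  have hP' : (P : ℝ) ≠ 0 := by exact_mod_cast hP.ne'
  have e1 : (((n + P : ℕ) : ℝ) * ∑ i : Fin a, (k i : ℝ) * ((B : ℝ) ^ (i : ℕ) / P)) =
      n * (∑ i : Fin a, (k i : ℝ) * ((B : ℝ) ^ (i : ℕ) / P)) +
        ((∑ i : Fin a, k i * (B : ℤ) ^ (i : ℕ) : ℤ) : ℝ) := by
    push_cast
    rw [add_mul]
    congr 1
    rw [Finset.mul_sum]
    refine Finset.sum_congr rfl fun i _ => ?_
    field_simp
  rw [e1, ee_add, ee_int, mul_one]

theorem sum_zmod (P : ℕ) [NeZero P] (F : ℕ → ℝ) : ∑ x : ZMod P, F x.val = ∑ j ∈ range P, F j := by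
  refine Finset.sum_nbij' (fun x => x.val) (fun j => (j : ZMod P)) ?_ ?_ ?_ ?_ ?_
  · intro x _
    exact Finset.mem_range.2 (ZMod.val_lt x)
  · intro j _
    exact Finset.mem_univ _
  · intro x _
    exact ZMod.natCast_zmod_val x
  · intro j hj
    exact ZMod.val_cast_of_lt (Finset.mem_range.1 hj)
  · intro x _
    rfl

/-- truncation to `[-1, 1]` -/
noncomputable def cl (t : ℝ) : ℝ := max (-1) (min 1 t)

theorem abs_cl (t : ℝ) : |cl t| ≤ 1 := by
  unfold cl
  rw [abs_le]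
  exact ⟨le_max_left _ _, max_le (by norm_num) (min_le_left _ _)⟩

theorem abs_sub_cl (t : ℝ) : |t - cl t| ≤ max 0 (|t| - 1) := by
  unfold cl
  rcases le_or_gt t (-1) with h | h
  · rw [min_eq_right (by linarith), max_eq_left h, abs_of_nonpos (by linarith),
      abs_of_nonpos (by linarith : t ≤ 0)]
    exact le_max_of_le_right (by linarith)
  · rcases le_or_gt t 1 with h' | h'
    · rw [min_eq_right h', max_eq_right h.le, sub_self, abs_zero]
      exact le_max_left _ _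
    · rw [min_eq_left h'.le, max_eq_right (by norm_num), abs_of_pos (by linarith),
        abs_of_pos (by linarith : 0 < t)]
      exact le_max_of_le_right le_rfl


/-- the two correlations are close -/
theorem close (P : ℕ) [NeZero P] (X Y : ZMod P → ℝ) (B κ : ℝ) (hB : 0 ≤ B)
    (hY : ∀ y, |Y y| ≤ B) (hX1 : (∑ y, |X y - cl (X y)|) / P ≤ κ)
    (hY1 : (∑ y, |Y y - cl (Y y)|) / P ≤ κ) (x : ZMod P) :
    |(∑ y, X y * Y (y + x)) / P - (∑ y, cl (X y) * cl (Y (y + x))) / P| ≤ κ * (B + 1) := by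
  have hP : (0 : ℝ) < P := by exact_mod_cast Nat.pos_of_ne_zero (NeZero.ne P)
  have h1 : (∑ y, |Y (y + x) - cl (Y (y + x))|) = ∑ y, |Y y - cl (Y y)| :=
    Fintype.sum_equiv (Equiv.addRight x) _ _ fun y => rfl
  rw [← sub_div, ← Finset.sum_sub_distrib, abs_div, abs_of_pos hP]
  rw [div_le_iff₀ hP] at hX1 hY1 ⊢
  calc |∑ y, (X y * Y (y + x) - cl (X y) * cl (Y (y + x)))| ≤
      ∑ y, |X y * Y (y + x) - cl (X y) * cl (Y (y + x))| := Finset.abs_sum_le_sum_abs _ _
    _ ≤ ∑ y, (|X y - cl (X y)| * B + |Y (y + x) - cl (Y (y + x))|) := by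
        refine Finset.sum_le_sum fun y _ => ?_
        have e : X y * Y (y + x) - cl (X y) * cl (Y (y + x)) =
            (X y - cl (X y)) * Y (y + x) + cl (X y) * (Y (y + x) - cl (Y (y + x))) := by ring
        rw [e]
        refine (abs_add_le _ _).trans (add_le_add ?_ ?_)
        · rw [abs_mul]
          exact mul_le_mul_of_nonneg_left (hY _) (abs_nonneg _)
        · rw [abs_mul]
          calc |cl (X y)| * |Y (y + x) - cl (Y (y + x))| ≤
              1 * |Y (y + x) - cl (Y (y + x))| :=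
                mul_le_mul_of_nonneg_right (abs_cl _) (abs_nonneg _)
            _ = _ := one_mul _
    _ = (∑ y, |X y - cl (X y)|) * B + ∑ y, |Y y - cl (Y y)| := by
        rw [Finset.sum_add_distrib, h1, Finset.sum_mul]
    _ ≤ κ * P * B + κ * P := by
        have := mul_le_mul_of_nonneg_right hX1 hB
        linarith
    _ = κ * (B + 1) * P := by ring

/-- a sum of zero, after truncation -/
theorem sum_cl (P : ℕ) [NeZero P] (X : ZMod P → ℝ) (κ : ℝ) (hX0 : ∑ y, X y = 0)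
    (hX1 : (∑ y, |X y - cl (X y)|) / P ≤ κ) : |∑ y, cl (X y)| ≤ κ * P := by
  have hP : (0 : ℝ) < P := by exact_mod_cast Nat.pos_of_ne_zero (NeZero.ne P)
  rw [div_le_iff₀ hP] at hX1
  have e : ∑ y, cl (X y) = -∑ y, (X y - cl (X y)) := by
    rw [Finset.sum_sub_distrib, hX0]
    ring
  rw [e, abs_neg]
  exact (Finset.abs_sum_le_sum_abs _ _).trans hX1

theorem pf_RSG (h1 : T_RIE) (_h2 : T_MTV) (h3 : T_SMP) (h4 : T_REA) (h5 : T_CLP) : T_RSG := by
  classical
  intro a α s c c' Φ η γ hInd h0 hc hc' hΦ hη hx hx' hγ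
  obtain ⟨C, hC, hRIE⟩ := h1 Φ hΦ
  -- bounds
  obtain ⟨B, hB1, hBc, hBc', hBz⟩ : ∃ B : ℝ, 1 ≤ B ∧ ∑ k ∈ s, ‖c k‖ ≤ B ∧ ∑ k ∈ s, ‖c' k‖ ≤ B ∧
      ∑ k ∈ s, ‖c (-k) * c' k‖ ≤ B := by
    have n1 : 0 ≤ ∑ k ∈ s, ‖c k‖ := Finset.sum_nonneg fun _ _ => norm_nonneg _
    have n2 : 0 ≤ ∑ k ∈ s, ‖c' k‖ := Finset.sum_nonneg fun _ _ => norm_nonneg _
    have n3 : 0 ≤ ∑ k ∈ s, ‖c (-k) * c' k‖ := Finset.sum_nonneg fun _ _ => norm_nonneg _
    exact ⟨1 + (∑ k ∈ s, ‖c k‖ + ∑ k ∈ s, ‖c' k‖ + ∑ k ∈ s, ‖c (-k) * c' k‖), by linarith,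
      by linarith, by linarith, by linarith⟩
  have hcont : Continuous Φ := by
    have := hΦ.continuousOn isOpen_univ
    rwa [← continuousOn_univ]
  have huc := (isCompact_Icc (a := -B) (b := B)).uniformContinuousOn_of_continuous
    hcont.continuousOn
  rw [Metric.uniformContinuousOn_iff] at huc
  obtain ⟨δ, hδ, huc⟩ := huc (η / 4) (by linarith)
  obtain ⟨q, hq⟩ := exists_polynomial_near_of_continuousOn (-B) B Φ hcont.continuousOn (η / 4)
    (by linarith)
  -- the elements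
  let x := el s c
  let y := el s c'
  let zz := el s (fun k => c (-k) * c' k)
  let q' : Polynomial ℂ := q.map (algebraMap ℝ ℂ)
  let w := Polynomial.aeval zz q'
  have hevw : ∀ (β : Fin a → ℝ) (n : ℕ) (t : ℝ), ev β n zz = t → ev β n w = ((q.eval t : ℝ) : ℂ) := by
    intro β n t ht
    show ev β n (Polynomial.aeval zz q') = _
    rw [← Polynomial.aeval_algHom_apply, ht, Polynomial.coe_aeval_eq_eval]
    show (q.map (algebraMap ℝ ℂ)).eval ((algebraMap ℝ ℂ) t) = _
    rw [Polynomial.eval_map_apply]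
    rfl
  have hevzz : ∀ n, ev α n zz = (γ n : ℂ) := by
    intro n
    rw [hγ n]
    exact ev_el α s _ n
  have hγB : ∀ n, γ n ∈ Set.Icc (-B) B := by
    intro n
    rw [Set.mem_Icc, ← abs_le]
    have : ‖ev α n zz‖ ≤ B := by
      show ‖ev α n (el s _)‖ ≤ B
      rw [ev_el]
      exact (norm_tv α s _ n).trans hBz
    rw [hevzz n, Complex.norm_real] at this
    exact this
  refine ⟨insert 0 w.coeff.support, fun k => w.coeff k, Finset.mem_insert_self _ _, ?_, ?_⟩
  swap
  · intro n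
    rw [← ev_eq_tv α n w _ (Finset.subset_insert _ _), hevw α n (γ n) (hevzz n),
      ← Complex.ofReal_sub, Complex.norm_real, Real.norm_eq_abs, abs_sub_comm]
    exact (hq _ (hγB n)).le.trans (by linarith)
  -- the main part
  obtain ⟨κ, hκ, hκδ, hκη⟩ : ∃ κ : ℝ, 0 < κ ∧ κ * (B + 1) < δ ∧ C * κ ≤ η / 8 := by
    have hBp : 0 < B + 1 := by linarith
    refine ⟨min (δ / (2 * (B + 1))) (η / (8 * C)), ?_, ?_, ?_⟩
    · exact lt_min (by positivity) (by positivity)
    · calc min (δ / (2 * (B + 1))) (η / (8 * C)) * (B + 1) ≤ δ / (2 * (B + 1)) * (B + 1) :=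
          mul_le_mul_of_nonneg_right (min_le_left _ _) hBp.le
        _ = δ / 2 := by field_simp
        _ < δ := by linarith
    · calc C * min (δ / (2 * (B + 1))) (η / (8 * C)) ≤ C * (η / (8 * C)) :=
          mul_le_mul_of_nonneg_left (min_le_right _ _) hC.le
        _ = η / 8 := by field_simp
  obtain ⟨F1, hF1⟩ := h5 a α x κ hInd hκ (fun n => by
    obtain ⟨r, hr, hr'⟩ := hx n
    exact ⟨r, hr, by rw [← hr']; exact ev_el α s c n⟩)
  obtain ⟨F2, hF2⟩ := h5 a α y κ hInd hκ (fun n => by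
    obtain ⟨r, hr, hr'⟩ := hx' n
    exact ⟨r, hr, by rw [← hr']; exact ev_el α s c' n⟩)
  obtain ⟨B', P₀, hP₀, hSMP⟩ := h3 a (F1 ∪ F2 ∪ {w, x, y} ∪
    (s ×ˢ s).image (fun p => AddMonoidAlgebra.single (p.1 + p.2) (1 : ℂ)))
  obtain ⟨P, hPge, hPp⟩ := Nat.exists_infinite_primes (max (max P₀ 3) (⌈8 * C / η⌉₊ + 1))
  have : Fact P.Prime := ⟨hPp⟩
  have hPP₀ : P₀ ≤ P := (le_max_left _ _).trans ((le_max_left _ _).trans hPge)
  have hP3 : 3 ≤ P := (le_max_right _ _).trans ((le_max_left _ _).trans hPge)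
  have hPη : 8 * C / η ≤ P := by
    have : ⌈8 * C / η⌉₊ + 1 ≤ P := (le_max_right _ _).trans hPge
    have h' : ((⌈8 * C / η⌉₊ + 1 : ℕ) : ℝ) ≤ P := by exact_mod_cast this
    push_cast at h'
    linarith [Nat.le_ceil (8 * C / η)]
  have hPpos : 0 < P := by omega
  have hPr : (0 : ℝ) < P := by exact_mod_cast hPpos
  have hCP : C * (1 / P) ≤ η / 8 := by
    rw [div_le_iff₀ hη] at hPη
    rw [mul_one_div, div_le_iff₀ hPr]
    linarith
  let β : Fin a → ℝ := fun i => (B' : ℝ) ^ (i : ℕ) / P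
  have hS := hSMP P hPP₀
  have hSx : ∀ u ∈ F1 ∪ F2 ∪ {w, x, y} ∪
      (s ×ˢ s).image (fun p => AddMonoidAlgebra.single (p.1 + p.2) (1 : ℂ)),
      (∑ j ∈ range P, ev β j u) / P = u.coeff 0 := hS
  have hw : (∑ j ∈ range P, ev β j w) / P = w.coeff 0 := hSx w (by simp)
  have hx0 : (∑ j ∈ range P, ev β j x) / P = x.coeff 0 := hSx x (by simp)
  have hy0 : (∑ j ∈ range P, ev β j y) / P = y.coeff 0 := hSx y (by simp)
  have hcx := hF1 P β hPpos (fun u hu => hSx u (by simp [hu]))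
  have hcy := hF2 P β hPpos (fun u hu => hSx u (by simp [hu]))
  -- real values
  have rx : ∀ n, (ev β n x).im = 0 := h4 a α β x hInd (fun n => by
    obtain ⟨r, hr, hr'⟩ := hx n
    have : ev α n x = r := by rw [← hr']; exact ev_el α s c n
    rw [this, Complex.ofReal_im])
  have ry : ∀ n, (ev β n y).im = 0 := h4 a α β y hInd (fun n => by
    obtain ⟨r, hr, hr'⟩ := hx' n
    have : ev α n y = r := by rw [← hr']; exact ev_el α s c' n
    rw [this, Complex.ofReal_im])
  have rz : ∀ n, (ev β n zz).im = 0 := h4 a α β zz hInd (fun n => by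
    rw [hevzz n, Complex.ofReal_im])
  let X : ℕ → ℝ := fun n => (ev β n x).re
  let Y : ℕ → ℝ := fun n => (ev β n y).re
  let Z : ℕ → ℝ := fun n => (ev β n zz).re
  have eX : ∀ n, ev β n x = (X n : ℂ) := fun n => Complex.ext rfl (by rw [rx n]; simp)
  have eY : ∀ n, ev β n y = (Y n : ℂ) := fun n => Complex.ext rfl (by rw [ry n]; simp)
  have eZ : ∀ n, ev β n zz = (Z n : ℂ) := fun n => Complex.ext rfl (by rw [rz n]; simp)
  have bY : ∀ n, |Y n| ≤ B := by
    intro n
    have : ‖ev β n y‖ ≤ B := by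
      show ‖ev β n (el s _)‖ ≤ B
      rw [ev_el]
      exact (norm_tv β s _ n).trans hBc'
    rwa [eY n, Complex.norm_real] at this
  have bZ : ∀ n, |Z n| ≤ B := by
    intro n
    have : ‖ev β n zz‖ ≤ B := by
      show ‖ev β n (el s _)‖ ≤ B
      rw [ev_el]
      exact (norm_tv β s _ n).trans hBz
    rwa [eZ n, Complex.norm_real] at this
  have perY : Function.Periodic Y P := by
    intro n
    show (ev β (n + P) (el s c')).re = (ev β n (el s c')).re
    rw [ev_el, ev_el]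
    exact congrArg Complex.re (tv_per B' P hPpos s c' n)
  have sX : ∑ u : ZMod P, X u.val = 0 := by
    rw [sum_zmod P X]
    have e1 : x.coeff 0 = 0 := coeff_el s c h0
    rw [e1, div_eq_zero_iff] at hx0
    rcases hx0 with h | h
    · have : ((∑ j ∈ range P, X j : ℝ) : ℂ) = 0 := by
        rw [← h]
        push_cast
        exact Finset.sum_congr rfl fun j _ => (eX j).symm
      exact_mod_cast this
    · exact absurd h (by exact_mod_cast hPpos.ne')
  have sY : ∑ u : ZMod P, Y u.val = 0 := by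
    rw [sum_zmod P Y]
    have e1 : y.coeff 0 = 0 := coeff_el s c' h0
    rw [e1, div_eq_zero_iff] at hy0
    rcases hy0 with h | h
    · have : ((∑ j ∈ range P, Y j : ℝ) : ℂ) = 0 := by
        rw [← h]
        push_cast
        exact Finset.sum_congr rfl fun j _ => (eY j).symm
      exact_mod_cast this
    · exact absurd h (by exact_mod_cast hPpos.ne')
  have tX : (∑ u : ZMod P, |X u.val - cl (X u.val)|) / P ≤ κ := by
    rw [sum_zmod P fun j => |X j - cl (X j)|]
    refine le_trans (div_le_div_of_nonneg_right (Finset.sum_le_sum fun j _ => ?_) hPr.le) hcx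
    exact abs_sub_cl _
  have tY : (∑ u : ZMod P, |Y u.val - cl (Y u.val)|) / P ≤ κ := by
    rw [sum_zmod P fun j => |Y j - cl (Y j)|]
    refine le_trans (div_le_div_of_nonneg_right (Finset.sum_le_sum fun j _ => ?_) hPr.le) hcy
    exact abs_sub_cl _
  -- the convolution
  have hconv : ∀ j : ℕ, (∑ i ∈ range P, X i * Y (i + j)) / P = Z j := by
    intro j
    have h := conv β P s c c' hc (fun k hk l hl => hSx _ (by
      refine Finset.mem_union_right _ (Finset.mem_image.2 ⟨(k, l), ?_, rfl⟩)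
      exact Finset.mem_product.2 ⟨hk, hl⟩)) j
    have e1 : ∀ i ∈ range P, tv β s c i * tv β s c' (i + j) = ((X i * Y (i + j) : ℝ) : ℂ) := by
      intro i _
      rw [← ev_el, ← ev_el]
      show ev β i x * ev β (i + j) y = _
      rw [eX, eY, Complex.ofReal_mul]
    rw [Finset.sum_congr rfl e1, ← ev_el] at h
    have h' : (∑ i ∈ range P, ((X i * Y (i + j) : ℝ) : ℂ)) / P = (Z j : ℂ) := h.trans (eZ j)
    rw [← Complex.ofReal_sum] at h'
    exact_mod_cast h'
  have hZ : ∀ u : ZMod P, (∑ v : ZMod P, X v.val * Y (v + u).val) / P = Z u.val := by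
    intro u
    rw [← hconv u.val, ← sum_zmod P fun i => X i * Y (i + u.val)]
    congr 1
    refine Finset.sum_congr rfl fun v _ => ?_
    rw [ZMod.val_add, perY.map_mod_nat]
  -- Riesz
  have hR := hRIE P κ (fun u => cl (X u.val)) (fun u => cl (Y u.val)) (by omega) hκ.le
    (fun _ => abs_cl _) (fun _ => abs_cl _) (sum_cl P (fun u => X u.val) κ sX tX)
    (sum_cl P (fun u => Y u.val) κ sY tY)
  have hV : ∀ u : ZMod P, |(∑ v : ZMod P, cl (X v.val) * cl (Y (v + u).val)) / P| ≤ 1 := by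
    intro u
    rw [abs_div, abs_of_pos hPr, div_le_one hPr]
    calc |∑ v : ZMod P, cl (X v.val) * cl (Y (v + u).val)| ≤
        ∑ v : ZMod P, |cl (X v.val) * cl (Y (v + u).val)| := Finset.abs_sum_le_sum_abs _ _
      _ ≤ ∑ _v : ZMod P, (1 : ℝ) := by
          refine Finset.sum_le_sum fun v _ => ?_
          rw [abs_mul]
          exact mul_le_one₀ (abs_cl _) (abs_nonneg _) (abs_cl _)
      _ = P := by
          rw [Finset.sum_const, Finset.card_univ, ZMod.card, nsmul_eq_mul, mul_one]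
  have hZV : ∀ u : ZMod P,
      Φ (Z u.val) ≤ Φ ((∑ v : ZMod P, cl (X v.val) * cl (Y (v + u).val)) / P) + η / 4 := by
    intro u
    have h := close P (fun u => X u.val) (fun u => Y u.val) B κ (by linarith) (fun _ => bY _) tX
      tY u
    have hZu := hZ u
    beta_reduce at h
    rw [hZu] at h
    have := huc (Z u.val) (by rw [Set.mem_Icc, ← abs_le]; exact bZ _)
      ((∑ v : ZMod P, cl (X v.val) * cl (Y (v + u).val)) / P)
      (by rw [Set.mem_Icc, ← abs_le]; exact (hV u).trans hB1)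
      (by rw [Real.dist_eq]; exact lt_of_le_of_lt h hκδ)
    rw [Real.dist_eq] at this
    linarith [(abs_lt.1 this).2]
  -- the end
  have hwre : (w.coeff 0).re = (∑ u : ZMod P, q.eval (Z u.val)) / P := by
    rw [← hw, sum_zmod P fun j => q.eval (Z j)]
    have e1 : ∀ j ∈ range P, ev β j w = ((q.eval (Z j) : ℝ) : ℂ) := fun j _ =>
      hevw β j (Z j) (eZ j)
    rw [Finset.sum_congr rfl e1, ← Complex.ofReal_sum]
    have e2 : ((∑ j ∈ range P, q.eval (Z j) : ℝ) : ℂ) / P =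
        (((∑ j ∈ range P, q.eval (Z j)) / P : ℝ) : ℂ) := by push_cast; rfl
    rw [e2, Complex.ofReal_re]
  show (w.coeff 0).re ≤ _
  rw [hwre]
  have hsum : (∑ u : ZMod P, q.eval (Z u.val)) / P ≤
      (∑ u : ZMod P, Φ ((∑ v : ZMod P, cl (X v.val) * cl (Y (v + u).val)) / P)) / P + η / 2 := by
    rw [div_le_iff₀ hPr, add_mul, div_mul_cancel₀ _ hPr.ne']
    calc ∑ u : ZMod P, q.eval (Z u.val) ≤
        ∑ u : ZMod P, (Φ ((∑ v : ZMod P, cl (X v.val) * cl (Y (v + u).val)) / P) + η / 2) := by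
          refine Finset.sum_le_sum fun u _ => ?_
          have g1 := hq (Z u.val) (by rw [Set.mem_Icc, ← abs_le]; exact bZ _)
          have g2 := hZV u
          linarith [(abs_lt.1 g1).2]
      _ = _ := by
          rw [Finset.sum_add_distrib, Finset.sum_const, Finset.card_univ, ZMod.card, nsmul_eq_mul]
          ring
  have hCκ : C * (κ + 1 / P) ≤ η / 4 := by
    rw [mul_add]
    linarith
  linarith

end Pool.Agent.H82.X
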